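import Pool.Agent.H354.ISO.Defs

set_option autoImplicit false

namespace Pool.Agent.H368.ISO.LIFT

open Pool.Agent.H354.ISO

/-- an element of `ZMod (p ^ e)` with nonzero image in `ZMod p` is a unit -/
theorem isUnit_of_cast {p e : ℕ} [hp : Fact p.Prime] (he : e ≠ 0) (x : ZMod (p ^ e))
    (hx : ZMod.castHom (dvd_pow_self p he) (ZMod p) x ≠ 0) : IsUnit x := by
  have : NeZero (p ^ e) := ⟨pow_ne_zero e hp.out.ne_zero⟩
  have h1 : ((x.val : ℕ) : ZMod (p ^ e)) = x := ZMod.natCast_zmod_val x
  rw [← h1] at hx ⊢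
  rw [map_natCast] at hx
  rw [ZMod.isUnit_iff_coprime]
  refine Nat.Coprime.pow_right e ?_
  refine Nat.Coprime.symm ?_
  rw [Nat.Prime.coprime_iff_not_dvd hp.out]
  intro hd
  exact hx ((ZMod.natCast_eq_zero_iff _ _).2 hd)

/-- the chosen lift of an element -/
def tau (p e : ℕ) (a : ZMod p) : ZMod (p ^ e) := ((a.val : ℕ) : ZMod (p ^ e))

theorem cast_tau {p e : ℕ} [hp : Fact p.Prime] (he : e ≠ 0) (a : ZMod p) :
    ZMod.castHom (dvd_pow_self p he) (ZMod p) (tau p e a) = a := by
  have : NeZero p := ⟨hp.out.ne_zero⟩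
  unfold tau
  rw [map_natCast]
  exact ZMod.natCast_zmod_val a

theorem tau_zero {p e : ℕ} : tau p e 0 = 0 := by
  unfold tau
  rw [ZMod.val_zero, Nat.cast_zero]

/-- first coordinate of the lift of a pair -/
noncomputable def L1 (p e : ℕ) [Fact p.Prime] (a _b : ZMod p) : ZMod (p ^ e) := tau p e a

open Classical in
/-- second coordinate of the lift of a pair -/
noncomputable def L2 (p e : ℕ) [Fact p.Prime] (a b : ZMod p) : ZMod (p ^ e) :=
  if a = 0 then tau p e b else tau p e a * tau p e (b / a)

theorem cast_L2 {p e : ℕ} [hp : Fact p.Prime] (he : e ≠ 0) (a b : ZMod p) :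
    ZMod.castHom (dvd_pow_self p he) (ZMod p) (L2 p e a b) = b := by
  unfold L2
  by_cases ha : a = 0
  · rw [if_pos ha, cast_tau he]
  · rw [if_neg ha, map_mul, cast_tau he, cast_tau he]
    field_simp

theorem L_comm {p e : ℕ} [hp : Fact p.Prime] (a b a' b' : ZMod p) (h : a * b' = a' * b) :
    L1 p e a b * L2 p e a' b' = L1 p e a' b' * L2 p e a b := by
  unfold L1 L2
  by_cases ha : a = 0
  · by_cases ha' : a' = 0
    · rw [ha, ha', tau_zero]; simp
    · have hb : b = 0 := by
        rw [ha, zero_mul] at h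
        rcases mul_eq_zero.1 h.symm with h1 | h1
        · exact absurd h1 ha'
        · exact h1
      rw [ha, hb, if_pos rfl, tau_zero, zero_mul, mul_zero]
  · by_cases ha' : a' = 0
    · have hb : b' = 0 := by
        rw [ha', zero_mul] at h
        rcases mul_eq_zero.1 h with h1 | h1
        · exact absurd h1 ha
        · exact h1
      rw [ha', hb, if_pos rfl, tau_zero, zero_mul, mul_zero]
    · have hq : b / a = b' / a' := by
        rw [div_eq_div_iff ha ha']
        linear_combination -h
      rw [if_neg ha, if_neg ha', hq]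
      ring

theorem t_LIFT : S_LIFT := by
  intro p e hp he n m α β
  have : NeZero (p ^ e) := ⟨pow_ne_zero e hp.out.ne_zero⟩
  constructor
  · intro h
    refine ⟨fun s => L1 p e (α (cl m s)) (β (cl m s)), fun s => L2 p e (α (cl m s)) (β (cl m s)),
      fun s => cast_tau he _, fun s => cast_L2 he _ _, ?_, ?_⟩
    · intro s t hst
      have hc : cl m s = cl m t := Quot.sound hst
      exact ⟨by show L1 p e (α (cl m s)) (β (cl m s)) = L1 p e (α (cl m t)) (β (cl m t)); rw [hc],
        by show L2 p e (α (cl m s)) (β (cl m s)) = L2 p e (α (cl m t)) (β (cl m t)); rw [hc]⟩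
    · intro s t k hk
      show (k : ZMod (p ^ e)) * (L1 p e (α (cl m s)) (β (cl m s)) * L2 p e (α (cl m t)) (β (cl m t))
        - L1 p e (α (cl m t)) (β (cl m t)) * L2 p e (α (cl m s)) (β (cl m s))) = 0
      by_cases hc : cl m s = cl m t
      · rw [hc]; ring
      · by_cases hd : p ^ e ∣ k
        · rw [(ZMod.natCast_eq_zero_iff k (p ^ e)).2 hd, zero_mul]
        · have hk0 : k ≠ 0 := by
            intro h0
            exact hd (h0 ▸ dvd_zero _)
          have hE : ValEdge m (p ^ e) (cl m s) (cl m t) := by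
            refine ⟨hc, s, t, rfl, rfl, by omega, ?_⟩
            have h2 : m s t / 2 = k := by omega
            rw [h2]; exact hd
          rw [L_comm _ _ _ _ (h _ _ hE), sub_self, mul_zero]
  · rintro ⟨X, Y, hX, hY, -, hE⟩ C D ⟨hCD, s, t, rfl, rfl, h0, hd⟩
    have heven : ¬ Odd (m s t) := fun ho => hCD (Quot.sound ho)
    rw [Nat.not_odd_iff_even] at heven
    obtain ⟨k, hk⟩ := heven
    have hk2 : m s t = 2 * k := by omega
    have hkd : m s t / 2 = k := by omega
    rw [hkd] at hd
    have h1 := hE s t k hk2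
    by_contra hne
    have hu : IsUnit (X s * Y t - X t * Y s) := by
      apply isUnit_of_cast he
      rw [map_sub, map_mul, map_mul, hX, hX, hY, hY]
      intro h2
      exact hne (sub_eq_zero.1 h2)
    have h3 : (k : ZMod (p ^ e)) = 0 := by
      rcases hu with ⟨v, hv⟩
      rw [← hv] at h1
      exact (Units.mul_left_eq_zero v).1 h1
    exact hd ((ZMod.natCast_eq_zero_iff k (p ^ e)).1 h3)

end Pool.Agent.H368.ISO.LIFT
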